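import Pool.Agent.Y645.UP.Stm

set_option autoImplicit false

/-! # The generic point, and Noetherian induction (helper of UP) -/

namespace Pool.Agent.Y314.UP

open MvPolynomial Module
open Pool.Agent.Y645.UM Pool.Agent.Y645.UL Pool.Agent.Y645.UP

theorem t_GENp : Pool.Agent.Y645.UP.S_GENp := by
  intro k J _ _ p hp
  have := hp
  let A := MvPolynomial J k ⧸ p
  let L := FractionRing A
  have hinj : Function.Injective (algebraMap A L) := IsFractionRing.injective A L
  refine ⟨L, inferInstance, inferInstance,
    fun i => algebraMap A L (Ideal.Quotient.mk p (X i)), ?_⟩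
  intro f
  have e : aeval (fun i => algebraMap A L (Ideal.Quotient.mk p (X i))) =
      (IsScalarTower.toAlgHom k A L).comp (Ideal.Quotient.mkₐ k p) := by
    apply MvPolynomial.algHom_ext
    intro s
    rw [aeval_X]
    rfl
  have e2 : aeval (fun i => algebraMap A L (Ideal.Quotient.mk p (X i))) f =
      algebraMap A L (Ideal.Quotient.mk p f) := by
    rw [e]
    rfl
  rw [e2, map_eq_zero_iff _ hinj, Ideal.Quotient.eq_zero_iff_mem]

theorem pt_prime {k J : Type} [Field k] [Fintype J] {D : Data k} {δ : ℤ}
    {p : Ideal (MvPolynomial J k)}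
    (h : Ptp k J D δ p) : p.IsPrime := by
  obtain ⟨L, _, _, x, hx, _⟩ := h
  have e : p = RingHom.ker (aeval x : MvPolynomial J k →ₐ[k] L) := by
    ext f
    rw [hx, RingHom.mem_ker]
  rw [e]
  exact RingHom.ker_isPrime _

theorem t_Ap : Pool.Agent.Y645.UP.S_GENp → Pool.Agent.Y645.UP.S_Ap := by
  intro hG k _ D hPP J _ δ I₀
  induction I₀ using WellFoundedGT.induction with
  | ind I ih =>
    by_cases hJ : I.IsPrime
    · obtain ⟨L, _, _, y, hy⟩ := hG k J I hJ
      by_cases hd : (isoRk D y : ℤ) - (td k y : ℤ) ≤ δ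
      · refine ⟨{I}, Set.finite_singleton I, ?_, ?_⟩
        · intro q hq
          rw [Set.mem_singleton_iff] at hq
          rw [hq]
          exact ⟨le_refl _, L, inferInstance, inferInstance, y, hy, hd⟩
        · intro p hJp _
          exact ⟨I, Set.mem_singleton I, hJp⟩
      · push Not at hd
        obtain ⟨g, hg, H⟩ := hPP J L y
        have hgJ : g ∉ I := fun h => hg ((hy g).mp h)
        have hlt : I < I ⊔ Ideal.span {g} := by
          refine lt_of_le_of_ne le_sup_left fun h => hgJ ?_
          rw [h]
          exact Ideal.mem_sup_right (Ideal.mem_span_singleton_self g)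
        obtain ⟨Q, hQ, hQ1, hQ2⟩ := ih _ hlt
        refine ⟨Q, hQ, fun q hq => ⟨le_trans le_sup_left (hQ1 q hq).1, (hQ1 q hq).2⟩, ?_⟩
        intro p hJp hp
        refine hQ2 p ?_ hp
        obtain ⟨L', _, _, x', hx, hxd⟩ := hp
        refine sup_le hJp ?_
        rw [Ideal.span_le, Set.singleton_subset_iff]
        refine (hx g).mpr (H L' x' ?_ ?_)
        · intro f hf
          exact (hx f).mp (hJp ((hy f).mpr hf))
        · omega
    · rw [Ideal.not_isPrime_iff] at hJ
      rcases hJ with hJ | ⟨f, hf, g, hg, hfg⟩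
      · refine ⟨∅, Set.finite_empty, fun q hq => absurd hq (Set.notMem_empty q), ?_⟩
        intro p hJp hp
        rw [hJ, top_le_iff] at hJp
        exact absurd hJp (pt_prime hp).ne_top
      · have key : ∀ h : MvPolynomial J k, h ∉ I → I < I ⊔ Ideal.span {h} := by
          intro h hh
          refine lt_of_le_of_ne le_sup_left fun h' => hh ?_
          rw [h']
          exact Ideal.mem_sup_right (Ideal.mem_span_singleton_self h)
        obtain ⟨Q, hQ, hQ1, hQ2⟩ := ih _ (key f hf)
        obtain ⟨R, hR, hR1, hR2⟩ := ih _ (key g hg)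
        refine ⟨Q ∪ R, hQ.union hR, ?_, ?_⟩
        · intro q hq
          rcases hq with hq | hq
          · exact ⟨le_trans le_sup_left (hQ1 q hq).1, (hQ1 q hq).2⟩
          · exact ⟨le_trans le_sup_left (hR1 q hq).1, (hR1 q hq).2⟩
        · intro p hJp hp
          rcases (pt_prime hp).mem_or_mem (hJp hfg) with h | h
          · obtain ⟨q, hq, hqp⟩ := hQ2 p (sup_le hJp (by
              rw [Ideal.span_le, Set.singleton_subset_iff]
              exact h)) hp
            exact ⟨q, Or.inl hq, hqp⟩
          · obtain ⟨q, hq, hqp⟩ := hR2 p (sup_le hJp (by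
              rw [Ideal.span_le, Set.singleton_subset_iff]
              exact h)) hp
            exact ⟨q, Or.inr hq, hqp⟩

end Pool.Agent.Y314.UP
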